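import Pool.Agent.X86.FR.Conv
import Pool.Agent.X86.FR.Path

/-!
# A continuum of balanced beta-expansions

For every non-integer `β > 1` (in particular for every non-integer `β > 2`), Lebesgue almost every
`x ∈ I_β` has a continuum of balanced `β`-expansions.
-/

set_option autoImplicit false

open Set Filter Topology MeasureTheory

namespace Pool.Agent.Results.MP_d3ee63_an.ContinuumOfBalanced

/-- The sequence `ε` over `{0, …, ⌊β⌋}` (indexed from `0`) is a `β`-expansion of `x`, i.e.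
`x = ∑ ε_i β^{-(i+1)}`. -/
def IsExpansion (β : ℝ) (ε : ℕ → Fin (⌊β⌋₊ + 1)) (x : ℝ) : Prop :=
  HasSum (fun i => ((ε i : ℕ) : ℝ) / β ^ (i + 1)) x

/-- The proportion of the digit `k` among the first `n` digits of `ε`. -/
noncomputable def proportion {m : ℕ} (ε : ℕ → Fin (m + 1)) (k : Fin (m + 1)) (n : ℕ) : ℝ :=
  (((Finset.range n).filter (fun i => ε i = k)).card : ℝ) / n

/-- The sequence `ε` over `{0, …, m}` is balanced: every digit `k` has a frequency, and the
frequencies of `k` and of `m - k` (which is `Fin.rev k`) are equal. -/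
def Balanced {m : ℕ} (ε : ℕ → Fin (m + 1)) : Prop :=
  ∃ freq : Fin (m + 1) → ℝ, (∀ k, Tendsto (proportion ε k) atTop (𝓝 (freq k))) ∧
    ∀ k, freq k = freq (Fin.rev k)

/-- The interval `I_β = [0, ⌊β⌋/(β-1)]`. -/
def interval (β : ℝ) : Set ℝ := Icc 0 ((⌊β⌋₊ : ℝ) / (β - 1))

/-- **The answer to the question is yes.** For every non-integer `β > 1`, for Lebesgue almost every
`x ∈ I_β` the set of the balanced `β`-expansions of `x` has the cardinality of `ℝ`; moreover all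
these expansions can be taken with the same digit frequencies. -/
theorem _root_.Pool.Agent.Results.MP_d3ee63_an.ContinuumOfBalanced.result
    (β : ℝ) (hβ : 1 < β) (_hβ' : ∀ n : ℕ, β ≠ n) :
    (∀ᵐ x ∂(volume : Measure ℝ), x ∈ interval β →
      Cardinal.mk {ε : ℕ → Fin (⌊β⌋₊ + 1) | IsExpansion β ε x ∧ Balanced ε} =
        Cardinal.mk ℝ) ∧
    ∃ p : Fin (⌊β⌋₊ + 1) → ℝ, (∀ k, p k = p (Fin.rev k)) ∧
      ∀ᵐ x ∂(volume : Measure ℝ), x ∈ interval β →
        Cardinal.mk {ε : ℕ → Fin (⌊β⌋₊ + 1) | IsExpansion β ε x ∧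
          ∀ k, Tendsto (proportion ε k) atTop (𝓝 (p k))} = Cardinal.mk ℝ := by
  have h := X86.FR.hyp_floor hβ
  set p : Fin (⌊β⌋₊ + 1) → ℝ :=
    fun d => (X86.FR.gg β ⌊β⌋₊ d + X86.FR.gg β ⌊β⌋₊ (Fin.rev d)) / 2 with hp
  have hp01 : ∀ d, p d ∈ Icc (0:ℝ) 1 := by
    intro d
    have h1 := X86.FR.gg_mem h d
    have h2 := X86.FR.gg_mem h (Fin.rev d)
    simp only [hp]
    constructor <;> linarith [h1.1, h1.2, h2.1, h2.2]
  have hsym : ∀ k, p k = p (Fin.rev k) := by
    intro k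
    simp only [hp, Fin.rev_rev]
    ring
  have hmain := X86.FR.main h hp01 hp01 (X86.FR.sym_ae h)
  rw [ae_restrict_iff' measurableSet_Icc] at hmain
  have htend : ∀ ε : ℕ → Fin (⌊β⌋₊ + 1), X86.FR.FF p p ε →
      ∀ k, Tendsto (proportion ε k) atTop (𝓝 (p k)) := by
    intro ε hε k
    rw [X86.FR.FF_iff] at hε
    refine tendsto_of_liminf_eq_limsup (hε k).2 (hε k).1 ?_ ?_
    · exact isBoundedUnder_of ⟨1, X86.FR.prop_le_one ε k⟩
    · exact isBoundedUnder_of ⟨0, X86.FR.prop_nonneg ε k⟩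
  rw [Cardinal.mk_real]
  refine ⟨?_, p, hsym, ?_⟩
  · filter_upwards [hmain] with x hx hxI
    obtain ⟨F, hF, hF'⟩ := hx hxI
    refine X86.FR.mk_continuum h hF fun c => ⟨?_, p, htend _ (hF' c).2, hsym⟩
    exact (X86.FR.exp_iff h _ _).mp (hF' c).1
  · filter_upwards [hmain] with x hx hxI
    obtain ⟨F, hF, hF'⟩ := hx hxI
    refine X86.FR.mk_continuum h hF fun c => ⟨?_, htend _ (hF' c).2⟩
    exact (X86.FR.exp_iff h _ _).mp (hF' c).1

end Pool.Agent.Results.MP_d3ee63_an.ContinuumOfBalanced
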